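import Pool.Agent.W527.CL.Stm

/-! Project CL, part NONCOMPACT. -/

namespace Pool.Agent.W778.CL

open NumberField Pool.Agent.W527.CL

variable {K : Type} [Field K] [NumberField K] (D : FieldData K)

theorem perm_eq {φ : K →+* ℂ} {p : Equiv.Perm (Fin 5)} (h : ∀ k, φ (D.b k) = D.β (p k)) :
    D.perm φ = p := by
  refine Equiv.ext fun k => ?_
  exact D.inj ((D.perm_spec φ k).symm.trans (h k))

theorem perm_comp {τ : ℂ ≃+* ℂ} {π : Equiv.Perm (Fin 5)} (h : ∀ k, τ (D.β k) = D.β (π k))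
    (φ : K →+* ℂ) : D.perm ((τ : ℂ →+* ℂ).comp φ) = π * D.perm φ := by
  refine perm_eq D fun k => ?_
  rw [RingHom.comp_apply, D.perm_spec φ k]
  exact h _

theorem perm_conj (φ : K →+* ℂ) :
    D.perm (ComplexEmbedding.conjugate φ) = Equiv.swap 3 4 * D.perm φ := by
  refine perm_eq D fun k => ?_
  rw [ComplexEmbedding.conjugate_coe_eq, D.perm_spec φ k, D.conj]
  rfl

theorem perm_surj (p : Equiv.Perm (Fin 5)) : ∃ φ : K →+* ℂ, D.perm φ = p := by
  obtain ⟨φ, h⟩ := D.surj p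
  exact ⟨φ, perm_eq D h⟩

theorem reindex {N : AddSubgroup ((K →+* ℂ) → ℤ)} (hN : Stable K N) (σ : ℂ ≃+* ℂ)
    {z : (K →+* ℂ) → ℝ} (hz : ∀ n ∈ N, ∑ φ, (n φ : ℝ) * z φ = 0) :
    ∀ n ∈ N, ∑ φ, (n φ : ℝ) * z ((σ : ℂ →+* ℂ).comp φ) = 0 := by
  intro n hn
  have h := hz _ (hN σ.symm n hn)
  rw [← h]
  let e : (K →+* ℂ) ≃ (K →+* ℂ) :=
    { toFun := fun φ => (σ : ℂ →+* ℂ).comp φ
      invFun := fun φ => (σ.symm : ℂ →+* ℂ).comp φ
      left_inv := fun φ => by ext x; simp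
      right_inv := fun φ => by ext x; simp }
  refine Fintype.sum_equiv e _ _ fun φ => ?_
  have he : (σ.symm : ℂ →+* ℂ).comp (e φ) = φ := e.left_inv φ
  show (n φ : ℝ) * z ((σ : ℂ →+* ℂ).comp φ) = (n ((σ.symm : ℂ →+* ℂ).comp (e φ)) : ℝ) * z (e φ)
  rw [he]
  rfl

/-- five points: distinct points -/
theorem exists_perm : ∀ c c' : Fin 5, c ≠ c' → ∃ π π' : Equiv.Perm (Fin 5),
    π 0 = π' 0 ∧ π 1 = π' 1 ∧ π 2 = c ∧ π' 2 = c' := by
  intro c c' h
  obtain ⟨a, b, hab, hac, hac', hbc, hbc'⟩ : ∃ a b : Fin 5, a ≠ b ∧ a ≠ c ∧ a ≠ c' ∧ b ≠ c ∧ b ≠ c' := by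
    revert c c'; decide
  obtain ⟨π, h0, h1, h2⟩ : ∃ π : Equiv.Perm (Fin 5), π 0 = a ∧ π 1 = b ∧ π 2 = c := by
    have n01 : (0 : Fin 5) ≠ 1 := by decide
    have n02 : (0 : Fin 5) ≠ 2 := by decide
    have n12 : (1 : Fin 5) ≠ 2 := by decide
    obtain ⟨s1, h1⟩ : ∃ s : Equiv.Perm (Fin 5), s 0 = a := ⟨Equiv.swap 0 a, Equiv.swap_apply_left _ _⟩
    obtain ⟨s2, h2, h2'⟩ : ∃ s : Equiv.Perm (Fin 5), s 0 = a ∧ s 1 = b := by
      refine ⟨Equiv.swap (s1 1) b * s1, ?_, ?_⟩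
      · rw [Equiv.Perm.mul_apply, h1]
        exact Equiv.swap_apply_of_ne_of_ne (fun h => n01 (s1.injective (h1.trans h))) hab
      · rw [Equiv.Perm.mul_apply]
        exact Equiv.swap_apply_left _ _
    refine ⟨Equiv.swap (s2 2) c * s2, ?_, ?_, ?_⟩
    · rw [Equiv.Perm.mul_apply, h2]
      exact Equiv.swap_apply_of_ne_of_ne (fun h => n02 (s2.injective (h2.trans h))) hac
    · rw [Equiv.Perm.mul_apply, h2']
      exact Equiv.swap_apply_of_ne_of_ne (fun h => n12 (s2.injective (h2'.trans h))) hbc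
    · rw [Equiv.Perm.mul_apply]
      exact Equiv.swap_apply_left _ _
  refine ⟨π, Equiv.swap c c' * π, ?_, ?_, h2, ?_⟩
  · rw [Equiv.Perm.mul_apply, h0, Equiv.swap_apply_of_ne_of_ne hac hac']
  · rw [Equiv.Perm.mul_apply, h1, Equiv.swap_apply_of_ne_of_ne hbc hbc']
  · rw [Equiv.Perm.mul_apply, h2, Equiv.swap_apply_left]

section

variable {D} {N : AddSubgroup ((K →+* ℂ) → ℤ)}
  (hA : S_AUT) (hZ : S_ZERO) (hN : Stable K N)
  (H : ∀ z ∈ Real0 K N, ∃ X : Matrix (Fin 4) (Fin 4) ℝ, X.IsSymm ∧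
    ∀ φ, z φ = ev (D.mu X) (D.perm φ))

include hA hZ hN H

theorem step0 {z : (K →+* ℂ) → ℝ} (hz : z ∈ Real0 K N) {X : Matrix (Fin 4) (Fin 4) ℝ}
    (hX : ∀ φ, z φ = ev (D.mu X) (D.perm φ)) (π : Equiv.Perm (Fin 5)) :
    ∃ X' : Matrix (Fin 4) (Fin 4) ℝ, X'.IsSymm ∧
      (∀ i, D.mu X i (π 0) - D.mu X i (π 1) = ∑ j, X' i j * (D.lam j 0 - D.lam j 1)) ∧
      (∀ i, D.mu X i (π 0) - D.mu X i (π 2) = ∑ j, X' i j * (D.lam j 0 - D.lam j 2)) := by
  obtain ⟨τ, hτ⟩ := hA K D π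
  have hz' : (fun φ => (z ((τ : ℂ →+* ℂ).comp φ) +
      z ((τ : ℂ →+* ℂ).comp (ComplexEmbedding.conjugate φ))) / 2) ∈ Real0 K N := by
    refine ⟨fun φ => ?_, fun n hn => ?_⟩
    · have hcc : ComplexEmbedding.conjugate (ComplexEmbedding.conjugate φ) = φ := by
        ext x; simp
      simp only [hcc]
      ring
    · have h1 := reindex hN τ hz.2 n hn
      have h2 := reindex hN ((starRingAut (R := ℂ)).trans τ) hz.2 n hn
      have h3 : ∀ φ : K →+* ℂ, (((starRingAut (R := ℂ)).trans τ : ℂ ≃+* ℂ) : ℂ →+* ℂ).comp φ =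
          (τ : ℂ →+* ℂ).comp (ComplexEmbedding.conjugate φ) := by
        intro φ
        ext x
        simp
      simp only [h3] at h2
      have h4 : ∑ φ, (n φ : ℝ) * ((z ((τ : ℂ →+* ℂ).comp φ) +
          z ((τ : ℂ →+* ℂ).comp (ComplexEmbedding.conjugate φ))) / 2) =
          (∑ φ, (n φ : ℝ) * z ((τ : ℂ →+* ℂ).comp φ) +
          ∑ φ, (n φ : ℝ) * z ((τ : ℂ →+* ℂ).comp (ComplexEmbedding.conjugate φ))) / 2 := by
        rw [← Finset.sum_add_distrib, Finset.sum_div]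
        exact Finset.sum_congr rfl fun φ _ => by ring
      rw [h4, h1, h2]
      norm_num
  obtain ⟨X', hs, hX'⟩ := H _ hz'
  refine ⟨X', hs, ?_⟩
  have key : ∀ i k k', (D.mu X i (π k) + D.mu X i (π (Equiv.swap 3 4 k)) - 2 * D.mu X' i k) =
      (D.mu X i (π k') + D.mu X i (π (Equiv.swap 3 4 k')) - 2 * D.mu X' i k') := by
    refine hZ ℝ (fun i k => D.mu X i (π k) + D.mu X i (π (Equiv.swap 3 4 k)) - 2 * D.mu X' i k) ?_
    intro p
    obtain ⟨φ, rfl⟩ := perm_surj D p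
    have h1 := hX' φ
    simp only [hX, perm_comp D hτ, perm_conj] at h1
    have h2 : ev (fun i k => D.mu X i (π k) + D.mu X i (π (Equiv.swap 3 4 k)) - 2 * D.mu X' i k)
        (D.perm φ) = ev (D.mu X) (π * D.perm φ) + ev (D.mu X) (π * (Equiv.swap 3 4 * D.perm φ)) -
          2 * ev (D.mu X') (D.perm φ) := by
      unfold ev
      rw [Finset.mul_sum, ← Finset.sum_add_distrib, ← Finset.sum_sub_distrib]
      refine Finset.sum_congr rfl fun i _ => ?_
      simp only [Equiv.Perm.mul_apply]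
      ring
    rw [h2]
    linarith
  have e0 : Equiv.swap (3 : Fin 5) 4 0 = 0 := by decide
  have e1 : Equiv.swap (3 : Fin 5) 4 1 = 1 := by decide
  have e2 : Equiv.swap (3 : Fin 5) 4 2 = 2 := by decide
  constructor
  · intro i
    have h := key i 0 1
    rw [e0, e1] at h
    have h' : D.mu X' i 0 - D.mu X' i 1 = ∑ j, X' i j * (D.lam j 0 - D.lam j 1) := by
      unfold FieldData.mu
      rw [← Finset.sum_sub_distrib]
      exact Finset.sum_congr rfl fun j _ => by ring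
    linarith
  · intro i
    have h := key i 0 2
    rw [e0, e2] at h
    have h' : D.mu X' i 0 - D.mu X' i 2 = ∑ j, X' i j * (D.lam j 0 - D.lam j 2) := by
      unfold FieldData.mu
      rw [← Finset.sum_sub_distrib]
      exact Finset.sum_congr rfl fun j _ => by ring
    linarith

theorem step1 {z : (K →+* ℂ) → ℝ} (hz : z ∈ Real0 K N) {X : Matrix (Fin 4) (Fin 4) ℝ}
    (hX : ∀ φ, z φ = ev (D.mu X) (D.perm φ)) (k k' : Fin 5) :
    ∑ i, (D.mu X i k - D.mu X i k') * (D.lam i 0 - D.lam i 1) = 0 := by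
  have hAB : ∀ π : Equiv.Perm (Fin 5),
      ∑ i, (D.mu X i (π 0) - D.mu X i (π 1)) * (D.lam i 0 - D.lam i 2) =
      ∑ i, (D.mu X i (π 0) - D.mu X i (π 2)) * (D.lam i 0 - D.lam i 1) := by
    intro π
    obtain ⟨X', hs, h1, h2⟩ := step0 hA hZ hN H hz hX π
    simp only [h1, h2, Finset.sum_mul]
    rw [Finset.sum_comm]
    refine Finset.sum_congr rfl fun i _ => Finset.sum_congr rfl fun j _ => ?_
    rw [hs.apply i j]
    ring
  by_cases hk : k = k'
  · simp [hk]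
  obtain ⟨π, π', e0, e1, e2, e3⟩ := exists_perm k k' hk
  have h1 := hAB π
  have h2 := hAB π'
  rw [e0, e1, e2] at h1
  rw [e3] at h2
  have h3 := h1.symm.trans h2
  rw [← sub_eq_zero, ← Finset.sum_sub_distrib] at h3
  have h4 : ∑ i, (D.mu X i k - D.mu X i k') * (D.lam i 0 - D.lam i 1) =
      - ∑ i, ((D.mu X i (π' 0) - D.mu X i k) * (D.lam i 0 - D.lam i 1) -
        (D.mu X i (π' 0) - D.mu X i k') * (D.lam i 0 - D.lam i 1)) := by
    rw [← Finset.sum_neg_distrib]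
    exact Finset.sum_congr rfl fun i _ => by ring
  rw [h4, h3, neg_zero]

end

theorem indepQ (hI : S_INDEP) (hP : S_POS) (q : Fin 4 → ℚ)
    (h : ∑ i, (q i : ℝ) * (D.lam i 0 - D.lam i 1) = 0) : q = 0 := by
  choose r0 hr0 hr0' using fun j => hP K D 0 j (by decide) (by decide)
  choose r1 hr1 hr1' using fun j => hP K D 1 j (by decide) (by decide)
  have hl0 : ∀ j, D.lam j 0 = Real.log (r0 j) := by
    intro j
    unfold FieldData.lam
    rw [hr0' j, Complex.norm_real, Real.norm_of_nonneg (hr0 j).le]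
  have hl1 : ∀ j, D.lam j 1 = Real.log (r1 j) := by
    intro j
    unfold FieldData.lam
    rw [hr1' j, Complex.norm_real, Real.norm_of_nonneg (hr1 j).le]
  -- common denominator
  let d : ℕ := ∏ i, (q i).den
  have hd : d ≠ 0 := Finset.prod_ne_zero_iff.2 fun i _ => (q i).den_ne_zero
  have hm : ∀ i, ∃ m : ℤ, (m : ℚ) = d * q i := by
    intro i
    obtain ⟨c, hc⟩ : (q i).den ∣ d := Finset.dvd_prod_of_mem _ (Finset.mem_univ i)
    refine ⟨(q i).num * c, ?_⟩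
    rw [hc]
    push_cast
    have := Rat.mul_den_eq_num (q i)
    rw [← this]
    ring
  choose m hm using hm
  have hmr : ∀ i, (m i : ℝ) = d * (q i : ℝ) := by
    intro i
    have := congrArg (fun x : ℚ => (x : ℝ)) (hm i)
    push_cast at this
    exact this
  have hsum : ∑ i, (m i : ℝ) * (Real.log (r0 i) - Real.log (r1 i)) = 0 := by
    have : ∑ i, (m i : ℝ) * (Real.log (r0 i) - Real.log (r1 i)) =
        d * ∑ i, (q i : ℝ) * (D.lam i 0 - D.lam i 1) := by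
      rw [Finset.mul_sum]
      refine Finset.sum_congr rfl fun i _ => ?_
      rw [hmr, hl0, hl1]
      ring
    rw [this, h, mul_zero]
  have hlog : Real.log (∏ i, r0 i ^ m i) = Real.log (∏ i, r1 i ^ m i) := by
    rw [Real.log_prod (fun i _ => (zpow_pos (hr0 i) _).ne'),
      Real.log_prod (fun i _ => (zpow_pos (hr1 i) _).ne')]
    simp only [Real.log_zpow]
    rw [← sub_eq_zero, ← Finset.sum_sub_distrib, ← hsum]
    exact Finset.sum_congr rfl fun i _ => by ring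
  have hprod : ∏ i, r0 i ^ m i = ∏ i, r1 i ^ m i :=
    Real.log_injOn_pos (Set.mem_Ioi.2 (Finset.prod_pos fun i _ => zpow_pos (hr0 i) _))
      (Set.mem_Ioi.2 (Finset.prod_pos fun i _ => zpow_pos (hr1 i) _)) hlog
  have hm0 : m = 0 := by
    refine hI K D m ?_
    have := congrArg (fun x : ℝ => (x : ℂ)) hprod
    push_cast at this
    simp only [hr0', hr1']
    exact this
  funext i
  have h1 := hm i
  rw [hm0, Pi.zero_apply, Int.cast_zero] at h1
  have hd' : (d : ℚ) ≠ 0 := Nat.cast_ne_zero.2 hd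
  exact (mul_eq_zero.1 h1.symm).resolve_left hd'

theorem t_NONCOMPACT (hA : S_AUT) (hZ : S_ZERO) (hR : S_RAT) (hI : S_INDEP) (hP : S_POS) :
    S_NONCOMPACT := by
  intro K _ _ D N hN H z hz
  by_contra hne
  obtain ⟨φ0, hφ0⟩ := Function.ne_iff.1 hne
  obtain ⟨ψ, hψ⟩ : ∃ ψ : ℝ →ₗ[ℚ] ℚ, ψ (z φ0) ≠ 0 := by
    by_contra hcon
    push Not at hcon
    exact hφ0 ((Module.forall_dual_apply_eq_zero_iff ℚ (z φ0)).1 hcon)
  have hz' : (fun φ => ((ψ (z φ) : ℚ) : ℝ)) ∈ Real0 K N := by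
    refine ⟨fun φ => ?_, fun n hn => ?_⟩
    · simp only [hz.1 φ]
    · have h1 := congrArg ψ (hz.2 n hn)
      rw [map_sum, map_zero] at h1
      have h2 : ∀ φ, ψ ((n φ : ℝ) * z φ) = (n φ : ℚ) * ψ (z φ) := by
        intro φ
        have : (n φ : ℝ) * z φ = (n φ : ℤ) • z φ := by simp
        rw [this, map_zsmul]
        simp
      simp only [h2] at h1
      have h3 : ((∑ φ, (n φ : ℚ) * ψ (z φ) : ℚ) : ℝ) = 0 := by
        rw [h1, Rat.cast_zero]
      push_cast at h3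
      exact h3
  obtain ⟨X, hs, hX⟩ := H _ hz'
  have hrat : ∀ i k k', ∃ q : ℚ, D.mu X i k - D.mu X i k' = q := by
    refine hR (D.mu X) fun p => ?_
    obtain ⟨φ, rfl⟩ := perm_surj D p
    exact ⟨ψ (z φ), (hX φ).symm⟩
  have hconst : ∀ i k k', D.mu X i k = D.mu X i k' := by
    intro i k k'
    choose q hq using fun i => hrat i k k'
    have h1 := step1 hA hZ hN H hz' hX k k'
    simp only [hq] at h1
    have h2 := indepQ D hI hP q h1
    have h3 := hq i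
    rw [h2, Pi.zero_apply, Rat.cast_zero] at h3
    linarith
  have h0 := hX φ0
  have h1 : ev (D.mu X) (D.perm φ0) = 0 := by
    unfold ev
    refine Finset.sum_eq_zero fun i _ => ?_
    rw [hconst i _ (D.perm φ0 (Fin.last 4)), sub_self]
  rw [h1] at h0
  exact hψ (by exact_mod_cast h0)

end Pool.Agent.W778.CL
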